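import Mathlib

set_option autoImplicit false

/-! # Zero patterns of determinants with few variable entries (regularity tests) -/

namespace Pool.Agent.Y419.DG

open Finset MvPolynomial

section

variable {K : Type} [Field K] {m : ℕ} {σ : Type}

/-- the degree of the determinant of a matrix of polynomials -/
theorem totalDegree_det {n : Type} [Fintype n] [DecidableEq n]
    (A : Matrix n n (MvPolynomial σ K)) (h : ∀ i j, (A i j).totalDegree ≤ 1) :
    A.det.totalDegree ≤ Fintype.card n := by
  rw [Matrix.det_apply]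
  refine totalDegree_finsetSum_le fun τ _ => ?_
  have h1 : (∏ i, A (τ i) i).totalDegree ≤ Fintype.card n := by
    refine (totalDegree_finsetProd _ _).trans ?_
    refine (Finset.sum_le_sum fun i _ => h (τ i) i).trans ?_
    simp
  rcases Int.units_eq_one_or (Equiv.Perm.sign τ) with hs | hs
  · rw [hs, one_smul]
    exact h1
  · rw [hs, Units.neg_smul, one_smul, totalDegree_neg]
    exact h1

end

open Classical in
theorem reg_core
    (h1 : ∀ (K : Type) [Field K] (m : ℕ) (U : Finset (Fin m)) (A : Matrix (Fin m) (Fin m) K),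
      ∃ (δ : K) (C : Matrix U U K) (H : Matrix (Fin m) U K), ∀ B : Matrix (Fin m) (Fin m) K,
        (∀ a, a ∉ U → ∀ b, B a b = 0) →
        (A + B).det = δ * (C + (B.submatrix (fun a : U => (a : Fin m)) id) * H).det)
    (h2 : ∀ (K : Type) [Field K] (Y : Type) [Fintype Y] (σ : Type) [Fintype σ]
      (P : Y → MvPolynomial σ K) (d : ℕ), (∀ v, (P v).totalDegree ≤ d) →
      (Set.range fun (θ : σ → K) => {v : Y | eval θ (P v) ≠ 0}).ncard ≤
        (Fintype.card Y * d + 1) ^ Fintype.card σ)
    (K : Type) [Field K] (Y : Type) [Fintype Y] (m M : ℕ)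
    (E : Finset (Fin m × Fin m)) (c c' : Fin m → Fin m → K) (β : Fin m × Fin m → Y → Bool)
    (hM : Fintype.card Y * (E.card + 1) + 1 ≤ M) :
    ∃ S : Finset (Y → Bool), S.card ≤ M ^ (2 * E.card ^ 2 + 1) ∧
      ∀ A : Matrix (Fin m) (Fin m) K, (fun v => decide ((Matrix.of fun x y =>
        if (x, y) ∈ E then (if β (x, y) v = true then c' x y else c x y) else A x y).det ≠ 0)) ∈
          S := by
  obtain ⟨U, hU⟩ : ∃ U : Finset (Fin m), U = E.image Prod.fst := ⟨_, rfl⟩
  obtain ⟨V, hV⟩ : ∃ V : Finset (Fin m), V = E.image Prod.snd := ⟨_, rfl⟩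
  have hUc : U.card ≤ E.card := by
    rw [hU]
    exact Finset.card_image_le
  have hVc : V.card ≤ E.card := by
    rw [hV]
    exact Finset.card_image_le
  obtain ⟨B, hB⟩ : ∃ B : Y → Matrix (Fin m) (Fin m) K, B = fun v => Matrix.of fun x y =>
    if (x, y) ∈ E then (if β (x, y) v = true then c' x y else c x y) else 0 := ⟨_, rfl⟩
  have hB0 : ∀ v x y, (x, y) ∉ E → B v x y = 0 := by
    intro v x y hxy
    rw [hB]
    simp only [Matrix.of_apply]
    rw [if_neg hxy]
  have hBU : ∀ v a, a ∉ U → ∀ b, B v a b = 0 := by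
    intro v a ha b
    refine hB0 v a b fun hab => ha ?_
    rw [hU]
    exact Finset.mem_image.2 ⟨(a, b), hab, rfl⟩
  have hBV : ∀ v a b, b ∉ V → B v a b = 0 := by
    intro v a b hb
    refine hB0 v a b fun hab => hb ?_
    rw [hV]
    exact Finset.mem_image.2 ⟨(a, b), hab, rfl⟩
  obtain ⟨Q, hQ⟩ : ∃ Q : Y → Matrix U U (MvPolynomial (Unit ⊕ (U × U) ⊕ (V × U)) K),
      Q = fun v => Matrix.of fun a e : U => X (Sum.inr (Sum.inl (a, e))) +
        ∑ y : V, C (B v a y) * X (Sum.inr (Sum.inr (y, e))) := ⟨_, rfl⟩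
  obtain ⟨P, hP⟩ : ∃ P : Y → MvPolynomial (Unit ⊕ (U × U) ⊕ (V × U)) K,
    P = fun v => X (Sum.inl ()) * (Q v).det := ⟨_, rfl⟩
  have hdeg : ∀ v, (P v).totalDegree ≤ E.card + 1 := by
    intro v
    rw [hP]
    refine (totalDegree_mul _ _).trans ?_
    rw [totalDegree_X]
    have h3 : ((Q v).det).totalDegree ≤ Fintype.card U := by
      refine totalDegree_det _ fun a e => ?_
      rw [hQ]
      simp only [Matrix.of_apply]
      refine (totalDegree_add _ _).trans (max_le ?_ ?_)
      · rw [totalDegree_X]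
      · refine totalDegree_finsetSum_le fun y _ => ?_
        refine (totalDegree_mul _ _).trans ?_
        rw [totalDegree_C, totalDegree_X]
    rw [Fintype.card_coe] at h3
    omega
  have hcard := h2 K Y (Unit ⊕ (U × U) ⊕ (V × U)) P (E.card + 1) hdeg
  have hcs : Fintype.card (Unit ⊕ (U × U) ⊕ (V × U)) ≤ 2 * E.card ^ 2 + 1 := by
    simp only [Fintype.card_sum, Fintype.card_prod, Fintype.card_coe, Fintype.card_unit]
    have h3 : U.card * U.card ≤ E.card * E.card := Nat.mul_le_mul hUc hUc
    have h4 : V.card * U.card ≤ E.card * E.card := Nat.mul_le_mul hVc hUc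
    nlinarith
  have hbound : (Set.range fun (θ : (Unit ⊕ (U × U) ⊕ (V × U)) → K) =>
      {v : Y | eval θ (P v) ≠ 0}).ncard ≤ M ^ (2 * E.card ^ 2 + 1) :=
    hcard.trans ((Nat.pow_le_pow_left hM _).trans
      (Nat.pow_le_pow_right (by omega) hcs))
  refine ⟨((Set.toFinite (Set.range fun (θ : (Unit ⊕ (U × U) ⊕ (V × U)) → K) =>
      {v : Y | eval θ (P v) ≠ 0})).toFinset).image (fun p v => decide (v ∈ p)), ?_, ?_⟩
  · refine Finset.card_image_le.trans ?_
    rw [← Set.ncard_eq_toFinset_card]
    exact hbound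
  · intro A
    obtain ⟨A0, hA0⟩ : ∃ A0 : Matrix (Fin m) (Fin m) K, A0 = Matrix.of fun x y =>
      if (x, y) ∈ E then 0 else A x y := ⟨_, rfl⟩
    obtain ⟨δ, Cm, H, hdet⟩ := h1 K m U A0
    obtain ⟨θ, hθ⟩ : ∃ θ : (Unit ⊕ (U × U) ⊕ (V × U)) → K,
      θ = Sum.elim (fun _ => δ) (Sum.elim (fun p => Cm p.1 p.2) (fun p => H p.1 p.2)) := ⟨_, rfl⟩
    have hev : ∀ v, eval θ (P v) = (Matrix.of fun x y =>
        if (x, y) ∈ E then (if β (x, y) v = true then c' x y else c x y) else A x y).det := by
      intro v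
      have e1 : (Matrix.of fun x y =>
          if (x, y) ∈ E then (if β (x, y) v = true then c' x y else c x y) else A x y) =
          A0 + B v := by
        ext x y
        rw [hA0, hB]
        simp only [Matrix.of_apply, Matrix.add_apply]
        split_ifs <;> simp
      rw [e1, hdet (B v) (hBU v), hP]
      simp only [map_mul, eval_X]
      have e2 : θ (Sum.inl ()) = δ := by
        rw [hθ]
        rfl
      rw [e2, RingHom.map_det]
      congr 2
      ext a e
      rw [hQ]
      simp only [RingHom.mapMatrix_apply, Matrix.map_apply, Matrix.of_apply, map_add, map_sum,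
        map_mul, eval_X, eval_C, Matrix.add_apply, Matrix.mul_apply, Matrix.submatrix_apply, id]
      congr 1
      · rw [hθ]
        rfl
      · have e3 : ∀ y : V, θ (Sum.inr (Sum.inr (y, e))) = H y e := by
          intro y
          rw [hθ]
          rfl
        simp only [e3]
        refine (Finset.sum_coe_sort V (fun y => B v a y * H y e)).trans ?_
        exact Finset.sum_subset (Finset.subset_univ V) fun y _ hy => by
          rw [hBV v a y hy, zero_mul]
    rw [Finset.mem_image]
    refine ⟨{v : Y | eval θ (P v) ≠ 0}, ?_, ?_⟩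
    · rw [Set.Finite.mem_toFinset]
      exact ⟨θ, rfl⟩
    · funext v
      rw [decide_eq_decide]
      show eval θ (P v) ≠ 0 ↔ _
      rw [hev v]

end Pool.Agent.Y419.DG
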