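import Pool.Agent.Y649.DG.Stm
import Pool.Agent.Y419.DG.RegCore

set_option autoImplicit false

/-! # Few patterns of regularity tests -/

namespace Pool.Agent.Y419.DG

open Pool.Agent.Y649.DG

theorem reg (h1 : S_SCHUR) (h2 : S_ZERO) : S_REG := by
  intro K _ Y _ m M E c c' β hM
  exact reg_core h1 h2 K Y m M E c c' β hM

end Pool.Agent.Y419.DG
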