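import Pool.Agent.Y649.DG.Stm2

set_option autoImplicit false

/-! # Knapsack and formulas with determinant gates -/

namespace Pool.Agent.Y419.DG

open Finset
open Pool.Agent.TH697.Form (IsProb)
open Pool.Agent.TH697.Row (ApproximatesOn)
open Pool.Agent.Y649.DG
open Pool.Agent.Y638.RF.Knap (exists_m asks logb_facts card_T)

theorem knap_sizes {n m : ℕ} (hn : 4096 ≤ n) (hm : 3 * m + 1 ≤ n) (s : ℕ) (hs : s < n ^ 2) :
    4 * (m * m) * (5 * s + 1) + 2 + s ≤ n ^ 5 := by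
  have h1 : 9 * (m * m) ≤ n * n := by nlinarith
  have h2 : 5 * s + 1 ≤ 5 * n ^ 2 := by omega
  have h3 : 9 * (4 * (m * m) * (5 * s + 1)) ≤ 20 * n ^ 4 := by
    calc 9 * (4 * (m * m) * (5 * s + 1)) = 4 * (9 * (m * m)) * (5 * s + 1) := by ring
      _ ≤ 4 * (n * n) * (5 * n ^ 2) := Nat.mul_le_mul (Nat.mul_le_mul_left _ h1) h2
      _ = 20 * n ^ 4 := by ring
  have h5 : n ^ 4 * 4096 ≤ n ^ 5 := by
    calc n ^ 4 * 4096 ≤ n ^ 4 * n := Nat.mul_le_mul_left _ hn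
      _ = n ^ 5 := by ring
  have h6 : n ^ 2 ≤ n ^ 4 := Nat.pow_le_pow_right (by omega) (by norm_num)
  have h7 : 1 ≤ n ^ 4 := Nat.one_le_pow _ _ (by omega)
  omega

/-- the final arithmetic -/
theorem knap_arith {N w Z s t : ℝ} (hN : 4096 ≤ N) (ht : t = (N / 3 - 1) ^ 2)
    (hw : 0 ≤ w ^ 2 * Z * s ^ 2) (h : N ^ 2 * t ≤ 360000 * w ^ 2 * (26 * Z) * s ^ 2) :
    N ^ 4 ≤ 90000000 * w ^ 2 * Z * s ^ 2 := by
  have h1 : N ^ 2 / (903 / 100) ≤ (N / 3 - 1) ^ 2 := by nlinarith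
  have h2 : N ^ 2 * (N ^ 2 / (903 / 100)) ≤ N ^ 2 * t := by
    rw [ht]
    exact mul_le_mul_of_nonneg_left h1 (by positivity)
  have h3 : N ^ 4 = 903 / 100 * (N ^ 2 * (N ^ 2 / (903 / 100))) := by
    ring
  have h4 : 360000 * w ^ 2 * (26 * Z) * s ^ 2 = 9360000 * (w ^ 2 * Z * s ^ 2) := by ring
  have h5 : 90000000 * w ^ 2 * Z * s ^ 2 = 90000000 * (w ^ 2 * Z * s ^ 2) := by ring
  rw [h3, h5]
  rw [h4] at h
  linarith

theorem knap (h : S_BOUND) : S_KNAP := by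
  intro K _ _ n w q hn hw hq Ω _ μ hμ s F hsz hF
  obtain ⟨hl, _⟩ := logb_facts hn
  have hn' : (4096 : ℝ) ≤ n := by exact_mod_cast hn
  have hw' : (1 : ℝ) ≤ w := by exact_mod_cast hw
  have hs0 : (0 : ℝ) ≤ s := Nat.cast_nonneg s
  have hlq : 0 ≤ Real.logb 2 (q : ℝ) := Real.logb_nonneg (by norm_num) (by exact_mod_cast hq)
  have hwq : 0 ≤ ((w : ℝ) - 1) * Real.logb 2 q := mul_nonneg (by linarith) hlq
  obtain ⟨Z, hZ⟩ : ∃ Z : ℝ, Z = Real.logb 2 n + (w - 1) * Real.logb 2 q := ⟨_, rfl⟩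
  have hZ1 : 1 ≤ Z := by
    rw [hZ]
    linarith
  rw [← hZ]
  by_cases hs : n ^ 2 ≤ s
  · have h1 : ((n : ℝ) ^ 2) ^ 2 ≤ (s : ℝ) ^ 2 := by
      apply pow_le_pow_left₀ (by positivity)
      exact_mod_cast hs
    have h2 : (1 : ℝ) ≤ 90000000 * w ^ 2 * Z := by
      have : (1 : ℝ) ≤ w ^ 2 := one_le_pow₀ hw'
      nlinarith
    calc (n : ℝ) ^ 4 = ((n : ℝ) ^ 2) ^ 2 := by ring
      _ ≤ 1 * (s : ℝ) ^ 2 := by rw [one_mul]; exact h1
      _ ≤ (90000000 * w ^ 2 * Z) * s ^ 2 := mul_le_mul_of_nonneg_right h2 (by positivity)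
  obtain ⟨m, hm, hm2⟩ := exists_m hn
  have h0 : ((n : ℝ) / 3 - 1) ^ 2 ≤ (m : ℝ) * m := by nlinarith
  have h1 := bound_sq h (D := fun _ : Fin n => K) (T := Fin m × Fin m) μ hμ F (fun _ => True)
    Pool.Agent.Y638.RF.Knap.knap hF s hsz hq hw (m * m) (n ^ 5)
    (knap_sizes hn hm s (by omega)) 0 (by norm_num) univ (fun a _ => asks hm a)
    (((n : ℝ) / 3 - 1) ^ 2) (by nlinarith) (by rw [card_T]; exact h0) (26 * Z) (by
      rw [Nat.cast_pow n 5, Real.logb_pow, hZ]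
      push_cast
      nlinarith)
  rw [card_univ, Fintype.card_fin] at h1
  exact knap_arith hn' rfl (by positivity) h1

end Pool.Agent.Y419.DG
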